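import Pool.Agent.H190R3.HT.Reduce

/-!
# Ramsey's theorem for differences is not Weihrauch reducible to Hindman's theorem for pair sums

The principle for differences computes the limit of every eventually constant sequence `f` (of
colours, or of natural numbers): colour `m > 0` by `1` if `f` is constant on the interval from the
2-adic valuation of `m` to `m`.  If all differences of elements of an infinite set have one colour
then it is `1` (pigeonhole modulo a large power of two), and for any two elements `a < b` of the set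
the value of `f` at the 2-adic valuation of `b - a` is the limit: compare with a third element `x`,
the valuation of `b - a` is at least that of `x - a` or that of `x - b`.
On the other hand no continuous functionals compute the limit of an eventually constant sequence of
three colours from Hindman's theorem for sums of exactly two elements (`HT.no_reduction`).
-/

set_option autoImplicit false

namespace Pool.Agent.Results.MP_98861b_lc.NotWeihrauchReducible

open Pool.Agent.H190R3.Wei Pool.Agent.H190R3.HT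

/-- A problem: its instances, which are points of Baire space, and the solutions of each of
them. -/
structure Problem where
  /-- the set of instances -/
  inst : Set (ℕ → ℕ)
  /-- the set of solutions of an instance -/
  sol : (ℕ → ℕ) → Set (ℕ → ℕ)

/-- `z` is the characteristic function of an infinite set of natural numbers. -/
def IsInfiniteSet (z : ℕ → ℕ) : Prop := (∀ n, z n < 2) ∧ {n | z n = 1}.Infinite

/-- Ramsey's theorem for differences and two colours: the solutions of a two-colouring `x` of the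
natural numbers are the infinite sets `H` such that `x` is constant on the differences `b - a`,
`a < b` in `H`. -/
def RTsubt2 : Problem where
  inst := {x | ∀ n, x n < 2}
  sol x := {z | IsInfiniteSet z ∧ ∃ i, ∀ a b, a < b → z a = 1 → z b = 1 → x (b - a) = i}

/-- Hindman's theorem for sums of exactly two elements and two colours: the solutions of a
two-colouring `x` of the natural numbers are the infinite sets `H` such that `x` is constant on the
sums `a + b`, `a < b` in `H`. -/
def HT22 : Problem where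
  inst := {x | ∀ n, x n < 2}
  sol x := {z | IsInfiniteSet z ∧ ∃ i, ∀ a b, a < b → z a = 1 → z b = 1 → x (a + b) = i}

/-- The functionals given by `φ` and `ψ` reduce `P` to `Q`: for every instance `x` of `P`, `Φ(x)` is
an instance of `Q`, and for every solution `z` of `Φ(x)`, `Ψ(x ⊕ z)` is a solution of `x`. -/
def Reduces (φ ψ : List ℕ → List ℕ) (P Q : Problem) : Prop :=
  ∀ x ∈ P.inst, ∃ y ∈ Q.inst, Maps φ x y ∧
    ∀ z ∈ Q.sol y, ∃ w ∈ P.sol x, Maps ψ (pair x z) w

/-- Weihrauch reducibility: the functionals are given by computable monotone word functions. -/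
def WeihrauchLE (P Q : Problem) : Prop :=
  ∃ φ ψ : List ℕ → List ℕ, IsMachine φ ∧ IsMachine ψ ∧ Reduces φ ψ P Q

/-- Continuous Weihrauch reducibility: arbitrary word functions. -/
def ContinuousLE (P Q : Problem) : Prop := ∃ φ ψ : List ℕ → List ℕ, Reduces φ ψ P Q

/-- the interface between word functions and the combinatorial theorem, with an arbitrary
continuous decoding -/
theorem no_machine2 (c : (ℕ → Fin 3) → (ℕ → ℕ))
    (hc : ∀ f n, ∃ M, ∀ f', (∀ k < M, f' k = f k) → ∀ k < n, c f' k = c f k)
    (P : (ℕ → ℕ) → Prop)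
    (out : (ℕ → Fin 3) → (ℕ → ℕ) → Fin 3)
    (hout : ∀ f w, P w → ∃ M, ∀ f' w', (∀ k < M, f' k = f k) → (∀ k < M, w' k = w k) →
      P w' → out f' w' = out f w)
    (φ ψ : List ℕ → List ℕ)
    (hred : ∀ f, EC f → ∃ y : ℕ → ℕ, (∀ n, y n < 2) ∧ Maps φ (c f) y ∧
      ∀ z : ℕ → ℕ, (∀ n, z n < 2) → {n | z n = 1}.Infinite →
        (∃ i, ∀ a b, a < b → z a = 1 → z b = 1 → y (a + b) = i) →
        ∃ w, Maps ψ (pair (c f) z) w ∧ P w ∧ {k | f k = out f w}.Infinite) : False := by
  classical
  choose! Y hY1 hY2 hY3 using hred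
  let Φ : (ℕ → Fin 3) → ℕ → Bool := fun f k => decide (Y f k = 1)
  have hW : ∀ f, EC f → ∀ H i, Good (Φ f) H i → ∃ w, Maps ψ (pair (c f) (chi H)) w ∧
      P w ∧ {k | f k = out f w}.Infinite := by
    intro f hf H i hH
    apply hY3 f hf (chi H) (chi_lt H)
    · have : {n | chi H n = 1} = H := by ext k; exact chi_eq_one
      rw [this]; exact hH.1
    · refine ⟨if i then 1 else 0, fun a b hab ha hb => ?_⟩
      have h1 : decide (Y f (a + b) = 1) = i :=
        hH.2 a (chi_eq_one.1 ha) b (chi_eq_one.1 hb) hab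
      have h2 := hY1 f hf (a + b)
      cases i
      · have h3 : ¬ Y f (a + b) = 1 := by simpa using h1
        simp only [Bool.false_eq_true, if_false]
        omega
      · have h3 : Y f (a + b) = 1 := by simpa using h1
        simp [h3]
  let W : (ℕ → Fin 3) → Set ℕ → ℕ → ℕ := fun f H =>
    if h : ∃ w, Maps ψ (pair (c f) (chi H)) w ∧ P w ∧ {k | f k = out f w}.Infinite
      then h.choose else 0
  have hWs : ∀ f, EC f → ∀ H i, Good (Φ f) H i → Maps ψ (pair (c f) (chi H)) (W f H) ∧
      P (W f H) ∧ {k | f k = out f (W f H)}.Infinite := by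
    intro f hf H i hH
    have h := hW f hf H i hH
    have : W f H = h.choose := dif_pos h
    rw [this]
    exact h.choose_spec
  let Ψ : (ℕ → Fin 3) → Set ℕ → Fin 3 := fun f H => out f (W f H)
  refine no_reduction Φ Ψ ?_ ?_ ?_
  · intro f hf n
    obtain ⟨m, hm⟩ := maps_cont (hY2 f hf) n
    obtain ⟨M, hM⟩ := hc f m
    refine ⟨M, fun f' hf' hff k hk => ?_⟩
    show decide (Y f' k = 1) = decide (Y f k = 1)
    rw [hm (c f') (Y f') (hM f' hff) (hY2 f' hf') k hk]
  · intro f hf H i hH
    obtain ⟨h1, h2, h3⟩ := hWs f hf H i hH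
    obtain ⟨K, hK⟩ := hout f (W f H) h2
    obtain ⟨m, hm⟩ := maps_cont h1 K
    obtain ⟨M, hM⟩ := hc f m
    refine ⟨max M (max m K), fun f' hf' H' i' hff hHH hH' => ?_⟩
    obtain ⟨h1', h2', h3'⟩ := hWs f' hf' H' i' hH'
    have hagree : ∀ k < K, W f' H' k = W f H k := by
      apply hm _ _ _ h1'
      intro k hk
      unfold pair
      split_ifs
      · exact hM f' (fun j hj => hff j (lt_max_of_lt_left hj)) (k / 2) (by omega)
      · apply chi_congr
        exact hHH (k / 2) (lt_max_of_lt_right (lt_max_of_lt_left (by omega)))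
    exact hK f' (W f' H')
      (fun k hk => hff k (lt_max_of_lt_right (lt_max_of_lt_right hk))) hagree h2'
  · intro f hf H i hH
    exact (hWs f hf H i hH).2.2

/-- the instance for the sequence `f`: `m` has the colour `1` if `f` is constant on the interval
from the 2-adic valuation of `m` to `m` -/
noncomputable def dd (f : ℕ → ℕ) (m : ℕ) : ℕ :=
  @ite _ (∀ k, padicValNat 2 m ≤ k → k ≤ m → f k = f (padicValNat 2 m)) (Classical.dec _) 1 0

theorem dd_pos {f : ℕ → ℕ} {m : ℕ}
    (h : ∀ k, padicValNat 2 m ≤ k → k ≤ m → f k = f (padicValNat 2 m)) : dd f m = 1 := by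
  unfold dd; rw [if_pos h]

theorem dd_one {f : ℕ → ℕ} {m : ℕ} (h : dd f m = 1) :
    ∀ k, padicValNat 2 m ≤ k → k ≤ m → f k = f (padicValNat 2 m) := by
  by_contra hcon
  unfold dd at h
  rw [if_neg hcon] at h
  omega

theorem dd_lt (f : ℕ → ℕ) (m : ℕ) : dd f m < 2 := by
  unfold dd
  split_ifs <;> omega

theorem val_le (m : ℕ) (hm : m ≠ 0) : padicValNat 2 m ≤ m := by
  have h1 : 2 ^ padicValNat 2 m ∣ m := pow_padicValNat_dvd
  have h2 := Nat.le_of_dvd (Nat.pos_of_ne_zero hm) h1
  have h3 : padicValNat 2 m < 2 ^ padicValNat 2 m := Nat.lt_two_pow_self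
  omega

/-- the combinatorial lemma -/
theorem core (f : ℕ → ℕ) (c N : ℕ) (hN : ∀ k, N ≤ k → f k = c) (L : Set ℕ) (hL : L.Infinite)
    (i : ℕ) (h : ∀ a b, a < b → a ∈ L → b ∈ L → dd f (b - a) = i) (a b : ℕ) (hab : a < b)
    (ha : a ∈ L) (hb : b ∈ L) : f (padicValNat 2 (b - a)) = c := by
  -- the colour is `1`
  have hi : i = 1 := by
    obtain ⟨x, hx, y, hy, hxy, hmod⟩ := hL.exists_ne_map_eq_of_mapsTo
      (f := fun n => n % 2 ^ N) (t := {k | k < 2 ^ N})
      (fun n _ => Nat.mod_lt n (by positivity)) (Set.finite_lt_nat _)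
    have key : ∀ x y : ℕ, x ∈ L → y ∈ L → x < y → x % 2 ^ N = y % 2 ^ N → i = 1 := by
      intro x y hx hy hxy hmod
      rw [← h x y hxy hx hy]
      have hdvd : 2 ^ N ∣ y - x := (Nat.modEq_iff_dvd' hxy.le).1 hmod
      have hv : N ≤ padicValNat 2 (y - x) := (padicValNat_dvd_iff_le (by omega)).1 hdvd
      exact dd_pos fun k hk _ => by rw [hN k (by omega), hN _ hv]
    rcases lt_or_gt_of_ne hxy with hlt | hlt
    · exact key x y hx hy hlt hmod
    · exact key y x hy hx hlt hmod.symm
  obtain ⟨x, hx, hxb⟩ := hL.exists_gt (N + b)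
  have key : ∀ e, e ∈ L → e ≤ b → ∀ k, padicValNat 2 (x - e) ≤ k → f k = c := by
    intro e he heb k hk
    have h1 := dd_one (hi ▸ h e x (by omega) he hx)
    have h2 : f (padicValNat 2 (x - e)) = c := by
      rw [← h1 (x - e) (val_le _ (by omega)) le_rfl]
      exact hN _ (by omega)
    by_cases hkx : k ≤ x - e
    · rw [h1 k hk hkx, h2]
    · exact hN k (by omega)
  have hmin : padicValNat 2 (x - a) ≤ padicValNat 2 (b - a) ∨
      padicValNat 2 (x - b) ≤ padicValNat 2 (b - a) := by
    rcases le_total (padicValNat 2 (x - a)) (padicValNat 2 (x - b)) with hle | hle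
    · left
      rw [← padicValNat_dvd_iff_le (by omega : b - a ≠ 0)]
      have h1 : 2 ^ padicValNat 2 (x - a) ∣ x - a := pow_padicValNat_dvd
      have h2 : 2 ^ padicValNat 2 (x - a) ∣ x - b :=
        (padicValNat_dvd_iff_le (by omega : x - b ≠ 0)).2 hle
      have h3 : b - a = (x - a) - (x - b) := by omega
      rw [h3]
      exact Nat.dvd_sub h1 h2
    · right
      rw [← padicValNat_dvd_iff_le (by omega : b - a ≠ 0)]
      have h1 : 2 ^ padicValNat 2 (x - b) ∣ x - b := pow_padicValNat_dvd
      have h2 : 2 ^ padicValNat 2 (x - b) ∣ x - a :=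
        (padicValNat_dvd_iff_le (by omega : x - a ≠ 0)).2 hle
      have h3 : b - a = (x - a) - (x - b) := by omega
      rw [h3]
      exact Nat.dvd_sub h2 h1
  rcases hmin with h1 | h1
  · exact key a ha hab.le _ h1
  · exact key b hb le_rfl _ h1

/-- the least element -/
noncomputable def A (w : ℕ → ℕ) : ℕ := sInf {n | w n = 1}

/-- the second element -/
noncomputable def B (w : ℕ → ℕ) : ℕ := sInf {n | A w < n ∧ w n = 1}

theorem A_spec {w : ℕ → ℕ} (h : {n | w n = 1}.Infinite) : w (A w) = 1 := Nat.sInf_mem h.nonempty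

theorem B_spec {w : ℕ → ℕ} (h : {n | w n = 1}.Infinite) : A w < B w ∧ w (B w) = 1 := by
  obtain ⟨x, hx, hx'⟩ := h.exists_gt (A w)
  exact Nat.sInf_mem (s := {n | A w < n ∧ w n = 1}) ⟨x, hx', hx⟩

theorem A_congr {w w' : ℕ → ℕ} (h : {n | w n = 1}.Infinite) (h' : {n | w' n = 1}.Infinite)
    (hw : ∀ k ≤ A w, w' k = w k) : A w' = A w := by
  apply le_antisymm
  · apply Nat.sInf_le
    show w' (A w) = 1
    rw [hw _ le_rfl]
    exact A_spec h
  · by_contra hlt
    push Not at hlt
    have h1 := A_spec h'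
    rw [hw _ hlt.le] at h1
    have := Nat.sInf_le (s := {n | w n = 1}) h1
    unfold A at *
    omega

theorem B_congr {w w' : ℕ → ℕ} (h : {n | w n = 1}.Infinite) (h' : {n | w' n = 1}.Infinite)
    (hw : ∀ k ≤ B w, w' k = w k) : B w' = B w := by
  have hB := B_spec h
  have hB' := B_spec h'
  have hA := A_congr h h' fun k hk => hw k (hk.trans hB.1.le)
  apply le_antisymm
  · apply Nat.sInf_le
    refine ⟨?_, ?_⟩
    · rw [hA]; exact hB.1
    · rw [hw _ le_rfl]; exact hB.2
  · by_contra hlt
    push Not at hlt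
    rw [hw _ hlt.le] at hB'
    have : B w ≤ B w' := Nat.sInf_le (s := {n | A w < n ∧ w n = 1}) ⟨hA ▸ hB'.1, hB'.2⟩
    omega

theorem dd_cont (f f' : ℕ → ℕ) (n : ℕ) (h : ∀ k < n, f' k = f k) : ∀ k < n, dd f' k = dd f k := by
  intro m hm
  have h0 : padicValNat 2 m ≤ m := by
    rcases Nat.eq_zero_or_pos m with h0 | h0
    · subst h0; simp
    · exact val_le m h0.ne'
  have hiff : (∀ k, padicValNat 2 m ≤ k → k ≤ m → f' k = f' (padicValNat 2 m)) ↔
      (∀ k, padicValNat 2 m ≤ k → k ≤ m → f k = f (padicValNat 2 m)) := by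
    constructor
    · intro h1 k hk hk'
      rw [← h k (by omega), ← h _ (by omega)]
      exact h1 k hk hk'
    · intro h1 k hk hk'
      rw [h k (by omega), h _ (by omega)]
      exact h1 k hk hk'
  unfold dd
  by_cases h1 : ∀ k, padicValNat 2 m ≤ k → k ≤ m → f k = f (padicValNat 2 m)
  · rw [if_pos h1, if_pos (hiff.2 h1)]
  · rw [if_neg h1, if_neg (fun h2 => h1 (hiff.1 h2))]

theorem not_RTsubt2 : ¬ ContinuousLE RTsubt2 HT22 := by
  classical
  rintro ⟨φ, ψ, h⟩
  refine no_machine2 (fun f => dd fun k => (f k : ℕ)) ?_ (fun w => {n | w n = 1}.Infinite)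
    (fun f w => f (padicValNat 2 (B w - A w))) ?_ φ ψ ?_
  · intro f n
    exact ⟨n, fun f' hf => dd_cont _ _ n fun k hk => by rw [hf k hk]⟩
  · intro f w hw
    refine ⟨max (B w + 1) (padicValNat 2 (B w - A w) + 1), fun f' w' hf hww hw' => ?_⟩
    have hB := B_spec hw
    have e1 : B w' = B w := B_congr hw hw' fun k hk => hww k (lt_max_of_lt_left (by omega))
    have e2 : A w' = A w := A_congr hw hw' fun k hk => hww k (lt_max_of_lt_left (by omega))
    show f' (padicValNat 2 (B w' - A w')) = f (padicValNat 2 (B w - A w))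
    rw [e1, e2]
    exact hf _ (lt_max_of_lt_right (Nat.lt_succ_self _))
  · intro f hf
    obtain ⟨c, N, hc⟩ := hf
    obtain ⟨y, hy, h1, h2⟩ := h (dd fun k => (f k : ℕ)) (dd_lt _)
    refine ⟨y, hy, h1, fun z hz1 hz2 hz3 => ?_⟩
    obtain ⟨w, ⟨hw1, i, hw2⟩, hw3⟩ := h2 z ⟨⟨hz1, hz2⟩, hz3⟩
    refine ⟨w, hw3, hw1.2, ?_⟩
    have hB := B_spec hw1.2
    have h3 := core (fun k => (f k : ℕ)) (c : ℕ) N (fun k hk => by rw [hc k hk])
      {n | w n = 1} hw1.2 i (fun a b hab ha hb => hw2 a b hab ha hb) (A w) (B w) hB.1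
      (A_spec hw1.2) hB.2
    have h4 : f (padicValNat 2 (B w - A w)) = c := Fin.ext h3
    rw [h4]
    refine (Set.infinite_of_not_bddAbove ?_)
    rintro ⟨b, hb⟩
    have := hb (show f (max N (b + 1)) = c from hc _ (le_max_left _ _))
    have h5 := le_max_right N (b + 1)
    omega

/-- **Q1 has a negative answer for Weihrauch reducibility.**  Ramsey's theorem for differences is
not Weihrauch reducible to Hindman's theorem for sums of exactly two elements (two colours each),
not even by means of continuous functionals. -/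
theorem result : ¬ WeihrauchLE RTsubt2 HT22 ∧ ¬ ContinuousLE RTsubt2 HT22 := by
  refine ⟨?_, not_RTsubt2⟩
  rintro ⟨φ, ψ, -, -, h⟩
  exact not_RTsubt2 ⟨φ, ψ, h⟩

end Pool.Agent.Results.MP_98861b_lc.NotWeihrauchReducible
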